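import Pool.Agent.GE.Final

/-!
MP_54c2ef_al, Q1: every good endomorphism of a free associative algebra is an automorphism.

`Pool.Agent.GE.IsGood` and `Pool.Agent.GE.IsGoodOp` (in `Pool/Agent/GE/Defs.lean`) are the two
possible readings of the product `ψ_m φ_m` in the definition of a good endomorphism.
-/

namespace Pool.Agent.Results.MP_54c2ef_al.GoodIsAut

universe u

open Pool.Agent.GE

/-- Every good endomorphism of `K⟨x_1, …, x_n⟩` is an automorphism, for every field `K` and
every `n` (for both readings of the product in the definition of good). -/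
theorem result (K : Type u) [Field K] (n : ℕ)
    (φ : FreeAlgebra K (Fin n) →ₐ[K] FreeAlgebra K (Fin n))
    (h : IsGood φ ∨ IsGoodOp φ) :
    ∃ e : FreeAlgebra K (Fin n) ≃ₐ[K] FreeAlgebra K (Fin n),
      (e : FreeAlgebra K (Fin n) →ₐ[K] FreeAlgebra K (Fin n)) = φ := by
  refine ⟨AlgEquiv.ofBijective φ (bijective_of_good φ h), ?_⟩
  ext i
  rfl

end Pool.Agent.Results.MP_54c2ef_al.GoodIsAut
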